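import Pool.Agent.helper3.T6R.Spec

/-!
# T6R (MP_16912e_nt), row RCN: many good elements for one ideal
-/

set_option autoImplicit false

namespace Pool.Agent.T6R

open Finset NumberField Pool.Agent.helper3.FT Pool.Agent.helper47.RA Pool.Agent.T5 Pool.Agent.T6
open scoped nonZeroDivisors

/-- comparison by squares -/
theorem RCN_sq {x y : ℝ} (hy : 0 ≤ y) (h : x ^ 2 ≤ y ^ 2) : x ≤ y := by
  refine le_of_not_gt fun h' => ?_
  nlinarith

/-- independence of the basis -/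
theorem RCN_ind {K : Type} [Field K] [NumberField K] (Q : QF K) (a : Ideal (𝓞 K)) (e₁ e₂ : 𝓞 K)
    (ha : a ≠ ⊥) (hRB : BAS Q (a ^ 2) e₁ e₂) (p q : ℤ) (h0 : (p : 𝓞 K) * e₁ + (q : 𝓞 K) * e₂ = 0) : q = 0 := by
  have hne : Q.Y (Q.cj e₁ * e₂) ≠ 0 := by
    intro h
    have h2 := hRB.det
    rw [h, abs_zero] at h2
    have h3 : Ideal.absNorm (a ^ 2) = 0 := by exact_mod_cast h2.symm
    rw [Ideal.absNorm_eq_zero_iff] at h3
    exact ha (pow_eq_zero_iff (two_ne_zero) |>.1 (by simpa using h3))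
  have h1 := Pool.Agent.helper26.T5.lbb_bilin Q e₁ e₂ 1 0 p q
  rw [h0, mul_zero] at h1
  have hY0 : Q.Y (0 : 𝓞 K) = 0 := by
    have := Q.Y_int 0
    rwa [Int.cast_zero] at this
  rw [hY0] at h1
  have h3 : (1 * q - 0 * p) * Q.Y (Q.cj e₁ * e₂) = 0 := h1.symm
  rcases mul_eq_zero.1 h3 with h4 | h4
  · linarith
  · exact absurd h4 hne

/-- sizes -/
theorem RCN_num {A B l s r k : ℝ} (hr : r = 2 * l * B) (h1 : r ^ 2 / 2 < s ^ 2) (h2 : s ^ 2 ≤ r ^ 2)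
    (hs : 0 < s) (hl : 0 < l) (hB : 1 / 4 ≤ B) (hk : 1 ≤ k) (hA : A = (2400 * (k + 2)) ^ 2) :
    16 ≤ A ∧ s ≤ r ∧ r ≤ 2 * s ∧ 144 * s ^ 2 ≤ A * r * B * l ∧ 180000 * l ≤ A * r * B ∧
      (8 * (k + 2) * B * 300) ^ 2 * (2 * l) ≤ A * r * B := by
  have hB0 : 0 < B := by linarith
  have hr0 : 0 < r := by rw [hr]; positivity
  have hA1 : 51840000 ≤ A := by
    rw [hA]
    nlinarith
  have hA0 : 0 < A := by linarith
  have hsr : s ≤ r := RCN_sq hr0.le h2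
  have hrs : r ≤ 2 * s := RCN_sq (by positivity) (by nlinarith)
  refine ⟨by linarith, hsr, hrs, ?_, ?_, ?_⟩
  · have h3 : A * r * B * l = A * (r ^ 2 / 2) := by
      have h4 : B * l = r / 2 := by rw [hr]; ring
      calc A * r * B * l = A * r * (B * l) := by ring
        _ = A * (r ^ 2 / 2) := by rw [h4]; ring
    rw [h3]
    nlinarith [sq_nonneg r]
  · have h3 : l / 2 ≤ r := by
      rw [hr]
      nlinarith
    have h4 : l / 8 ≤ r * B := by
      calc l / 8 = l / 2 * (1 / 4) := by ring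
        _ ≤ r * B := mul_le_mul h3 hB (by norm_num) hr0.le
    calc 180000 * l ≤ A * (l / 8) := by nlinarith
      _ ≤ A * (r * B) := mul_le_mul_of_nonneg_left h4 hA0.le
      _ = A * r * B := by ring
  · rw [hA, hr]
    apply le_of_eq
    ring

/-- the contradiction with many bad elements -/
theorem RCN_contra {N η η' A B Y : ℝ} {k : ℕ} (hk : 1 ≤ k) (hηk : 2 ≤ η * k) (hη' : η' = 1 / (2 * (k : ℝ) ^ 2))
    (hN : (2 * A) ^ (2 * k ^ 2) < N) (hN1 : 1 ≤ N) (hA : 1 ≤ A) (hB : 0 < B) (hBN : B ≤ N ^ η') (hY : Y ≤ N)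
    (h : (N ^ η) ^ k ≤ Y * (2 * (A * B)) ^ (k ^ 2)) : False := by
  have hN0 : 0 < N := by linarith
  have hk0 : (0 : ℝ) < k := by exact_mod_cast hk
  have h1 : N ^ 2 ≤ (N ^ η) ^ k := by
    rw [← Real.rpow_natCast (N ^ η) k, ← Real.rpow_mul hN0.le, ← Real.rpow_natCast N 2]
    exact Real.rpow_le_rpow_of_exponent_le hN1 (by push_cast; exact hηk)
  have h2 : B ^ (k ^ 2) ≤ √N := by
    calc B ^ (k ^ 2) ≤ (N ^ η') ^ (k ^ 2) := pow_le_pow_left₀ hB.le hBN _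
      _ = √N := by
        rw [← Real.rpow_natCast (N ^ η') (k ^ 2), ← Real.rpow_mul hN0.le, Real.sqrt_eq_rpow, hη']
        congr 1
        push_cast
        field_simp
  have h3 : (2 * (A * B)) ^ (k ^ 2) ≤ (2 * A) ^ (k ^ 2) * √N := by
    have h4 : 2 * (A * B) = (2 * A) * B := by ring
    rw [h4, mul_pow]
    exact mul_le_mul_of_nonneg_left h2 (by positivity)
  have h5 : (2 * A) ^ (k ^ 2) < √N := by
    rw [Real.lt_sqrt (by positivity), ← pow_mul, mul_comm (k ^ 2) 2]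
    exact hN
  have h6 : 0 < √N := Real.sqrt_pos.2 hN0
  have h7 : √N * √N = N := Real.mul_self_sqrt hN0.le
  have h8 : Y * (2 * (A * B)) ^ (k ^ 2) ≤ N * ((2 * A) ^ (k ^ 2) * √N) :=
    mul_le_mul hY h3 (by positivity) hN0.le
  have h9 : (2 * A) ^ (k ^ 2) * √N < N := by
    calc (2 * A) ^ (k ^ 2) * √N < √N * √N := mul_lt_mul_of_pos_right h5 h6
      _ = N := h7
  have h10 : N * ((2 * A) ^ (k ^ 2) * √N) < N * N := mul_lt_mul_of_pos_left h9 hN0
  have h11 : N ^ 2 = N * N := sq N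
  linarith

/-- the box -/
theorem RCN_box {K : Type} [Field K] [NumberField K] (Q : QF K) (F : Full Q) (d : ℕ) (t : Tpl) (N Y T r s z : ℝ)
    (hN : 0 < N) (hr : r = √N) (hs : 0 < s) (hsr : s ≤ r) (hrs : r ≤ 2 * s) (hY : 0 < Y) (hT : 0 < T)
    (hz1 : Y / 2 < z) (hz2 : z ≤ Y) (ht : IsT t) (hd : 1 ≤ d) (hn : Q.Y F.β = d * t.1.1) (hk : Q.Y F.γ = d * t.1.2)
    (hm : Q.Y F.u = d * t.2.1) (hg : Q.Y F.v = d * t.2.2.1) (hZ : F.Z = t.2.2.2)
    (h1 : z * √T ≤ 24 * ((Q.Y F.β : ℝ) * s)) (h2 : √z * T ≤ 300 * ((Q.Y F.γ : ℝ) * s))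
    (h3 : (Q.Y F.β : ℝ) * s ≤ z * √T) (h4 : (Q.Y F.γ : ℝ) * s ≤ √z * T)
    (h5 : |(Q.Y F.u : ℝ)| * s ≤ z * √z * √T) (h6 : |(Q.Y F.v : ℝ)| * s ≤ √z * (T * √T))
    (h7 : |(F.Z : ℝ)| ≤ z) : Bx (1 / 500) (N * (d : ℝ) ^ 2) Y T t := by
  have hr0 : 0 < r := by
    rw [hr]
    exact Real.sqrt_pos.2 hN
  have hd0 : (0 : ℝ) < d := by exact_mod_cast hd
  have hrd : √(N * (d : ℝ) ^ 2) = r * d := by
    rw [Real.sqrt_mul hN.le, Real.sqrt_sq hd0.le, hr]
  have hrd0 : 0 < r * d := by positivity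
  have hsT : 0 < √T := Real.sqrt_pos.2 hT
  have hsY : 0 < √Y := Real.sqrt_pos.2 hY
  have hz0 : 0 < z := by linarith
  have hsz : 0 < √z := Real.sqrt_pos.2 hz0
  have hYY : √Y ^ 2 = Y := Real.sq_sqrt hY.le
  have hzz : √z ^ 2 = z := Real.sq_sqrt hz0.le
  have hszY : √z ≤ √Y := Real.sqrt_le_sqrt hz2
  have hszY' : 3 / 5 * √Y ≤ √z := by
    refine RCN_sq hsz.le ?_
    rw [mul_pow, hYY, hzz]
    linarith
  have hn' : (Q.Y F.β : ℝ) = d * t.1.1 := by exact_mod_cast hn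
  have hk' : (Q.Y F.γ : ℝ) = d * t.1.2 := by exact_mod_cast hk
  have hm' : (Q.Y F.u : ℝ) = d * t.2.1 := by exact_mod_cast hm
  have hg' : (Q.Y F.v : ℝ) = d * t.2.2.1 := by exact_mod_cast hg
  rw [hn'] at h1 h3
  rw [hk'] at h2 h4
  rw [hm', abs_mul, abs_of_pos hd0] at h5
  rw [hg', abs_mul, abs_of_pos hd0] at h6
  have hn0 : (0 : ℝ) ≤ t.1.1 := Nat.cast_nonneg _
  have hk0 : (0 : ℝ) ≤ t.1.2 := Nat.cast_nonneg _
  refine ⟨ht, ?_, ?_, ?_, ?_, ?_, ?_, ?_⟩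
  · unfold sN
    rw [hrd, ← mul_div_assoc, div_le_iff₀ hrd0]
    have e1 : (d * (t.1.1 : ℝ)) * s ≤ (d * (t.1.1 : ℝ)) * r := mul_le_mul_of_nonneg_left hsr (by positivity)
    have e2 : Y / 2 * √T ≤ z * √T := mul_le_mul_of_nonneg_right hz1.le hsT.le
    have e3 : 0 ≤ Y * √T := by positivity
    calc 1 / 500 * (Y * √T) ≤ 1 / 48 * (Y * √T) := by linarith
      _ ≤ (d * (t.1.1 : ℝ)) * r := by linarith
      _ = t.1.1 * (r * d) := by ring
  · unfold sN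
    rw [hrd, ← mul_div_assoc, le_div_iff₀ hrd0]
    have e1 : (d * (t.1.1 : ℝ)) * r ≤ (d * (t.1.1 : ℝ)) * (2 * s) := mul_le_mul_of_nonneg_left hrs (by positivity)
    have e2 : z * √T ≤ Y * √T := mul_le_mul_of_nonneg_right hz2 hsT.le
    calc t.1.1 * (r * d) = (d * (t.1.1 : ℝ)) * r := by ring
      _ ≤ 2 * (Y * √T) := by linarith
  · unfold sK
    rw [hrd, ← mul_div_assoc, div_le_iff₀ hrd0]
    have e1 : (d * (t.1.2 : ℝ)) * s ≤ (d * (t.1.2 : ℝ)) * r := mul_le_mul_of_nonneg_left hsr (by positivity)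
    have e2 : 3 / 5 * √Y * T ≤ √z * T := mul_le_mul_of_nonneg_right hszY' hT.le
    calc 1 / 500 * (√Y * T) = 1 / 300 * (3 / 5 * √Y * T) := by ring
      _ ≤ (d * (t.1.2 : ℝ)) * r := by linarith
      _ = t.1.2 * (r * d) := by ring
  · unfold sK
    rw [hrd, ← mul_div_assoc, le_div_iff₀ hrd0]
    have e1 : (d * (t.1.2 : ℝ)) * r ≤ (d * (t.1.2 : ℝ)) * (2 * s) := mul_le_mul_of_nonneg_left hrs (by positivity)
    have e2 : √z * T ≤ √Y * T := mul_le_mul_of_nonneg_right hszY hT.le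
    calc t.1.2 * (r * d) = (d * (t.1.2 : ℝ)) * r := by ring
      _ ≤ 2 * (√Y * T) := by linarith
  · unfold sM
    rw [hrd, ← mul_div_assoc, le_div_iff₀ hrd0]
    have e1 : (d * |(t.2.1 : ℝ)|) * r ≤ (d * |(t.2.1 : ℝ)|) * (2 * s) := mul_le_mul_of_nonneg_left hrs (by positivity)
    have e2 : z * √z * √T ≤ Y * √Y * √T :=
      mul_le_mul_of_nonneg_right (mul_le_mul hz2 hszY hsz.le hY.le) hsT.le
    calc |(t.2.1 : ℝ)| * (r * d) = (d * |(t.2.1 : ℝ)|) * r := by ring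
      _ ≤ 2 * (Y * √Y * √T) := by linarith
  · unfold sG
    rw [hrd, ← mul_div_assoc, le_div_iff₀ hrd0]
    have e1 : (d * |(t.2.2.1 : ℝ)|) * r ≤ (d * |(t.2.2.1 : ℝ)|) * (2 * s) := mul_le_mul_of_nonneg_left hrs (by positivity)
    have e2 : √z * (T * √T) ≤ √Y * (T * √T) := mul_le_mul_of_nonneg_right hszY (by positivity)
    calc |(t.2.2.1 : ℝ)| * (r * d) = (d * |(t.2.2.1 : ℝ)|) * r := by ring
      _ ≤ 2 * (√Y * T * √T) := by linarith
  · rw [← hZ]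
    exact h7.trans hz2

theorem RCN (hRRO : RRO_stmt) (hRBA : RBA_stmt) (hRLB : RLB_stmt) (hRAT : RAT_stmt) (hREM : REM_stmt) : RCN_stmt := by
  classical
  intro η hη
  obtain ⟨k, hkdef⟩ : ∃ k : ℕ, k = ⌈2 / η⌉₊ := ⟨_, rfl⟩
  have hk1 : 1 ≤ k := by
    rw [hkdef]
    exact Nat.one_le_iff_ne_zero.2 (Nat.ceil_pos.2 (by positivity)).ne'
  have hk1' : (1 : ℝ) ≤ k := by exact_mod_cast hk1
  have hηk : 2 ≤ η * k := by
    have h1 : 2 / η ≤ k := by
      rw [hkdef]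
      exact Nat.le_ceil _
    rw [div_le_iff₀ hη] at h1
    linarith
  obtain ⟨A, hAdef⟩ : ∃ A : ℝ, A = (2400 * ((k : ℝ) + 2)) ^ 2 := ⟨_, rfl⟩
  have hA1 : 16 ≤ A := by
    rw [hAdef]
    nlinarith
  have hA10 : 0 < (2 * A) ^ (2 * k ^ 2) := by positivity
  refine ⟨A, 1 / (2 * (k : ℝ) ^ 2), 16384 ^ 2 + (2 * A) ^ (2 * k ^ 2), hA1, by positivity, ?_⟩
  intro K _ _ Q N Y l a θ hN hDpos hD1 hD2 hY hl1 hl2 ha
  obtain ⟨⟨f, g, hf, hg⟩, -, hYemb, hNorm, -, hne0, -⟩ := hREM K Q hDpos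
  have hNb : 16384 ^ 2 ≤ N := by linarith
  have hN0 : 0 < N := by linarith
  obtain ⟨r, hrdef⟩ : ∃ r : ℝ, r = √N := ⟨_, rfl⟩
  have hr2 : r ^ 2 = N := by
    rw [hrdef]
    exact Real.sq_sqrt hN0.le
  have hr0 : 0 < r := by
    rw [hrdef]
    exact Real.sqrt_pos.2 hN0
  have hr8 : 16384 ≤ r := by
    rw [hrdef, Real.le_sqrt' (by norm_num)]
    exact hNb
  have hD0 : (0 : ℝ) < (Q.D : ℝ) := by exact_mod_cast hDpos
  obtain ⟨s, hsdef⟩ : ∃ s : ℝ, s = √(Q.D : ℝ) := ⟨_, rfl⟩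
  have hs2 : s ^ 2 = (Q.D : ℝ) := by
    rw [hsdef]
    exact Real.sq_sqrt hD0.le
  have hs0 : 0 < s := by
    rw [hsdef]
    exact Real.sqrt_pos.2 hD0
  rw [← hrdef] at hY hl2 ⊢
  have hl0 : 0 < l := by
    have : 0 < N ^ (1 / 2 - 1 / (2 * (k : ℝ) ^ 2)) := Real.rpow_pos_of_pos hN0 _
    linarith
  obtain ⟨B, hBdef⟩ : ∃ B : ℝ, B = r / (2 * l) := ⟨_, rfl⟩
  have hrB : r = 2 * l * B := by
    rw [hBdef]
    field_simp
  have hB1 : 1 / 4 ≤ B := by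
    rw [hBdef, le_div_iff₀ (by positivity)]
    linarith
  have hB0 : 0 < B := by linarith
  have hBN : B ≤ N ^ (1 / (2 * (k : ℝ) ^ 2)) := by
    rw [hBdef, div_le_iff₀ (by positivity)]
    have h1 : r = N ^ (1 / (2 * (k : ℝ) ^ 2)) * N ^ (1 / 2 - 1 / (2 * (k : ℝ) ^ 2)) := by
      rw [← Real.rpow_add hN0, hrdef, Real.sqrt_eq_rpow]
      congr 1
      ring
    rw [h1]
    exact mul_le_mul_of_nonneg_left hl1 (Real.rpow_nonneg hN0.le _)
  obtain ⟨-, hsr, hrs, hc1, hc2, hc4⟩ := RCN_num (k := (k : ℝ)) hrB (by rw [hr2, hs2]; exact hD1)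
    (by rw [hr2, hs2]; exact hD2) hs0 hl0 hB1 hk1' hAdef
  -- the number T
  have hTeq : A * N / (2 * l) = A * r * B := by
    rw [hBdef, ← hr2]
    field_simp
  rw [hTeq]
  obtain ⟨T, hTdef⟩ : ∃ T : ℝ, T = A * r * B := ⟨_, rfl⟩
  rw [← hTdef] at hc1 hc2 hc4 ⊢
  have hT0 : 0 < T := by
    rw [hTdef]
    positivity
  have hTs : √T ^ 2 = T := Real.sq_sqrt hT0.le
  have hT0' : 0 < √T := Real.sqrt_pos.2 hT0
  -- the generator
  have hθ0 : θ ≠ 0 := by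
    intro h
    have h1 := ha.th
    rw [h] at h1
    have h2 : a ^ 5 = ⊥ := by
      rw [← h1]
      exact Ideal.span_singleton_eq_bot.2 rfl
    exact ha.ne ((pow_eq_zero_iff (n := 5) (by norm_num)).1 (by simpa using h2))
  obtain ⟨hAθ, hBθ⟩ := hne0 θ hθ0
  have hxA0 : 0 < xA Q θ := Real.rpow_pos_of_pos (abs_pos.2 hAθ) _
  have hxB0 : 0 < xB Q θ := Real.rpow_pos_of_pos (abs_pos.2 hBθ) _
  have hA5 : xA Q θ ^ 5 = |emA Q θ| := by
    unfold xA
    rw [← Real.rpow_natCast, ← Real.rpow_mul (abs_nonneg _)]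
    norm_num
  have hB5 : xB Q θ ^ 5 = |emB Q θ| := by
    unfold xB
    rw [← Real.rpow_natCast, ← Real.rpow_mul (abs_nonneg _)]
    norm_num
  have hszp : 0 < sz Q θ := by
    unfold sz
    positivity
  have hY0 : 0 < Y := lt_of_lt_of_le hszp ha.y2
  -- the basis
  have ha2 : a ^ 2 ≠ ⊥ := fun h => ha.ne ((pow_eq_zero_iff (n := 2) (by norm_num)).1 (by simpa using h))
  obtain ⟨e₁, e₂, hRB, hmin, -⟩ := hRLB K Q hDpos (a ^ 2) ha2 (xA Q θ ^ 2) (xB Q θ ^ 2) (by positivity) (by positivity)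
  obtain ⟨q₁, hq₁⟩ : ∃ q₁ : ℝ, q₁ = qf Q θ e₁ := ⟨_, rfl⟩
  have hq1 : l < q₁ := by
    rw [hq₁]
    exact ha.lo e₁ hRB.m1 hRB.ne
  have hq2 : q₁ ≤ 2 * l := by
    obtain ⟨α, h1, h2, h3⟩ := ha.hi
    rw [hq₁]
    exact (hmin α h1 h2).trans h3
  have hq0 : 0 < q₁ := by linarith
  have hqs : √q₁ ^ 2 = q₁ := Real.sq_sqrt hq0.le
  have hq0' : 0 < √q₁ := Real.sqrt_pos.2 hq0
  obtain ⟨j, x₀, hj0, hj, hrow⟩ := hRRO K Q hDpos a θ e₁ e₂ ha.pa ha.ne ha.th hRB T hT0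
    (by
      rw [← hs2, ← hq₁]
      exact hc1.trans (mul_le_mul_of_nonneg_left hq1.le hT0.le))
    (by
      rw [← hq₁]
      linarith)
  rw [← hsdef, ← hq₁] at hj
  rw [← hq₁] at hrow
  have hX : (8 * ((k : ℝ) + 2) * B) * (300 * √q₁) ≤ √T := by
    refine RCN_sq hT0'.le ?_
    rw [hTs]
    calc (8 * ((k : ℝ) + 2) * B * (300 * √q₁)) ^ 2 = (8 * ((k : ℝ) + 2) * B * 300) ^ 2 * √q₁ ^ 2 := by ring
      _ = (8 * ((k : ℝ) + 2) * B * 300) ^ 2 * q₁ := by rw [hqs]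
      _ ≤ (8 * ((k : ℝ) + 2) * B * 300) ^ 2 * (2 * l) := mul_le_mul_of_nonneg_left hq2 (by positivity)
      _ ≤ T := hc4
  -- the odd numbers of the row
  obtain ⟨o, ho, hox, hox'⟩ : ∃ o : ℤ, Odd o ∧ x₀ ≤ o ∧ o ≤ x₀ + 1 := by
    rcases Int.even_or_odd x₀ with h | h
    · exact ⟨x₀ + 1, h.add_one, by omega, le_rfl⟩
    · exact ⟨x₀, h, le_rfl, by omega⟩
  obtain ⟨m, hmdef⟩ : ∃ m : ℕ, m = ⌊4 * ((k : ℝ) + 2) * B⌋₊ := ⟨_, rfl⟩
  have hm1 : (m : ℝ) ≤ 4 * ((k : ℝ) + 2) * B := by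
    rw [hmdef]
    exact Nat.floor_le (by positivity)
  have hm2 : 4 * ((k : ℝ) + 2) * B < m + 1 := by
    rw [hmdef]
    exact Nat.lt_floor_add_one _
  obtain ⟨x, hxdef⟩ : ∃ x : ℕ → ℤ, ∀ i, x i = o + 2 * i := ⟨fun i => o + 2 * i, fun _ => rfl⟩
  have hxinj : Function.Injective x := by
    intro i i' h
    rw [hxdef, hxdef] at h
    omega
  have hx0 : ∀ i, x₀ ≤ x i := fun i => by
    rw [hxdef]
    omega
  have hxle : ∀ i ∈ range m, ((x i : ℝ) - x₀) * (300 * √q₁) ≤ √T := by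
    intro i hi
    have h1 : i + 1 ≤ m := mem_range.1 hi
    have h2 : (x i : ℝ) - x₀ ≤ 8 * ((k : ℝ) + 2) * B := by
      have h3 : x i - x₀ ≤ 2 * (m : ℤ) := by
        rw [hxdef]
        omega
      have h4 : (x i : ℝ) - x₀ ≤ 2 * (m : ℝ) := by exact_mod_cast h3
      linarith
    exact (mul_le_mul_of_nonneg_right h2 (by positivity)).trans hX
  have hxodd : ∀ i, Odd (x i) := fun i => by
    obtain ⟨w, hw⟩ := ho
    exact ⟨w + i, by rw [hxdef, hw]; ring⟩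
  have hrow' := fun i (hi : i ∈ range m) => hrow (x i) (hx0 i) (hxle i hi) (hxodd i)
  have hm0 : 0 ∈ range m := by
    rw [mem_range]
    by_contra h
    have h1 : m = 0 := by omega
    rw [h1, Nat.cast_zero] at hm2
    have h2 : (3 : ℝ) * (1 / 4) ≤ ((k : ℝ) + 2) * B := mul_le_mul (by linarith) hB1 (by norm_num) (by linarith)
    linarith
  obtain ⟨F00, -⟩ := hrow' 0 hm0
  have : Nonempty (Full Q) := ⟨F00⟩
  choose! F hFa hFβ hFα hβ0 hγ0 hs1 hs2' hs3 hs4 hs5 hs6 hs7 using hrow'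
  -- the bad ones
  obtain ⟨M, hMdef⟩ : ∃ M : Finset ℕ, M = (range m).filter (fun i => N ^ η < (gd Q (F i).β (F i).γ : ℝ)) := ⟨_, rfl⟩
  have hMcard : M.card < k := by
    by_contra hcon
    push Not at hcon
    obtain ⟨S, hSM, hSk⟩ := exists_subset_card_eq hcon
    have hSr : ∀ i ∈ S, i ∈ range m ∧ N ^ η < (gd Q (F i).β (F i).γ : ℝ) := by
      intro i hi
      have h1 := hSM hi
      rw [hMdef, mem_filter] at h1
      exact h1
    have h1 := hRBA K Q a θ e₁ e₂ ha.ne ha.np ha.th hRB j (S.image x) (N ^ η) (A * B) hj0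
      (Real.one_le_rpow (by linarith) hη.le) (by
        have h2 : (16 : ℝ) * (1 / 4) ≤ A * B := mul_le_mul hA1 hB1 (by norm_num) (by linarith)
        linarith) (by
        intro y hy
        obtain ⟨i, hi, rfl⟩ := mem_image.1 hy
        obtain ⟨hi1, hi2⟩ := hSr i hi
        exact ⟨F i, hFa i hi1, hFβ i hi1, hFα i hi1, (hβ0 i hi1).ne', hi2⟩) (by
        intro y hy y' hy'
        obtain ⟨i, hi, rfl⟩ := mem_image.1 hy
        obtain ⟨i', hi', rfl⟩ := mem_image.1 hy'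
        have hiM := (hSr i hi).1
        have hiM' := (hSr i' hi').1
        have h2 : |(x i : ℝ) - x i'| * (300 * √q₁) ≤ √T := by
          have a1 := hxle i hiM
          have a2 := hxle i' hiM'
          have a3 : (x₀ : ℝ) ≤ x i := by exact_mod_cast hx0 i
          have a4 : (x₀ : ℝ) ≤ x i' := by exact_mod_cast hx0 i'
          rcases abs_cases ((x i : ℝ) - x i') with ⟨h, _⟩ | ⟨h, _⟩
          · rw [h]
            refine le_trans (mul_le_mul_of_nonneg_right ?_ (by positivity)) a1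
            linarith
          · rw [h]
            refine le_trans (mul_le_mul_of_nonneg_right ?_ (by positivity)) a2
            linarith
        rw [abs_mul]
        have h3 : (|(j : ℝ)| * s) * (|(x i : ℝ) - x i'| * (300 * √q₁)) ≤
            (√T * √q₁) * √T := mul_le_mul hj h2 (by positivity) (by positivity)
        have h4 : (√T * √q₁) * √T = (A * B) * r * √q₁ := by
          calc (√T * √q₁) * √T = √T ^ 2 * √q₁ := by ring
            _ = (A * B) * r * √q₁ := by rw [hTs, hTdef]; ring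
        have h5 : (|(j : ℝ)| * |(x i : ℝ) - x i'| * 300) * (s * √q₁) ≤
            (2 * (A * B)) * (s * √q₁) := by
          have h6 : (A * B) * r * √q₁ ≤ (A * B) * (2 * s) * √q₁ :=
            mul_le_mul_of_nonneg_right (mul_le_mul_of_nonneg_left hrs (by positivity)) hq0'.le
          calc (|(j : ℝ)| * |(x i : ℝ) - x i'| * 300) * (s * √q₁) =
              (|(j : ℝ)| * s) * (|(x i : ℝ) - x i'| * (300 * √q₁)) := by ring
            _ ≤ (A * B) * r * √q₁ := by rw [← h4]; exact h3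
            _ ≤ (A * B) * (2 * s) * √q₁ := h6
            _ = (2 * (A * B)) * (s * √q₁) := by ring
        have h6 := le_of_mul_le_mul_right h5 (by positivity)
        have h7 : 0 < A * B := by positivity
        have h8 : 0 ≤ |(j : ℝ)| * |(x i : ℝ) - x i'| := by positivity
        linarith)
    rw [card_image_of_injective _ hxinj, hSk] at h1
    have hYN : |(Q.Y θ : ℝ)| ≤ N := by
      have h2 : |(Q.Y θ : ℝ)| * s ≤ xA Q θ ^ 5 + xB Q θ ^ 5 := by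
        rw [hA5, hB5, ← abs_of_pos hs0, ← abs_mul, hsdef, ← hYemb θ]
        exact abs_sub _ _
      have hz : xA Q θ ^ 2 + xB Q θ ^ 2 ≤ 4 * r := ha.y2.trans hY
      have e1 : xA Q θ ^ 10 ≤ (4 * r) ^ 5 := by
        have h3 : xA Q θ ^ 2 ≤ 4 * r := by linarith [sq_nonneg (xB Q θ)]
        calc xA Q θ ^ 10 = (xA Q θ ^ 2) ^ 5 := by ring
          _ ≤ (4 * r) ^ 5 := pow_le_pow_left₀ (by positivity) h3 5
      have e2 : xB Q θ ^ 10 ≤ (4 * r) ^ 5 := by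
        have h3 : xB Q θ ^ 2 ≤ 4 * r := by linarith [sq_nonneg (xA Q θ)]
        calc xB Q θ ^ 10 = (xB Q θ ^ 2) ^ 5 := by ring
          _ ≤ (4 * r) ^ 5 := pow_le_pow_left₀ (by positivity) h3 5
      have e3 : (xA Q θ ^ 5 + xB Q θ ^ 5) ^ 2 ≤ 4 * (4 * r) ^ 5 := by
        have h3 := sq_nonneg (xA Q θ ^ 5 - xB Q θ ^ 5)
        have h4 : xA Q θ ^ 10 = (xA Q θ ^ 5) ^ 2 := by ring
        have h5 : xB Q θ ^ 10 = (xB Q θ ^ 5) ^ 2 := by ring
        rw [h4] at e1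
        rw [h5] at e2
        linarith
      have e4 : (|(Q.Y θ : ℝ)| * s) ^ 2 ≤ 4 * (4 * r) ^ 5 :=
        (pow_le_pow_left₀ (by positivity) h2 2).trans e3
      have h5 : |(Q.Y θ : ℝ)| ^ 2 * (r ^ 2 / 4) ≤ 4 * (4 * r) ^ 5 := by
        have h6 : r ^ 2 / 4 ≤ s ^ 2 := by
          rw [hr2, hs2]
          linarith
        calc |(Q.Y θ : ℝ)| ^ 2 * (r ^ 2 / 4) ≤ |(Q.Y θ : ℝ)| ^ 2 * s ^ 2 :=
              mul_le_mul_of_nonneg_left h6 (by positivity)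
          _ = (|(Q.Y θ : ℝ)| * s) ^ 2 := by ring
          _ ≤ _ := e4
      have h7 : |(Q.Y θ : ℝ)| ^ 2 ≤ 16384 * r ^ 3 := by
        refine le_of_mul_le_mul_right ?_ (show 0 < r ^ 2 / 4 by positivity)
        calc |(Q.Y θ : ℝ)| ^ 2 * (r ^ 2 / 4) ≤ 4 * (4 * r) ^ 5 := h5
          _ = 16384 * r ^ 3 * (r ^ 2 / 4) := by ring
      refine RCN_sq hN0.le (h7.trans ?_)
      have h8 : 16384 * r ^ 3 ≤ r * r ^ 3 := mul_le_mul_of_nonneg_right hr8 (by positivity)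
      calc 16384 * r ^ 3 ≤ r * r ^ 3 := h8
        _ = (r ^ 2) ^ 2 := by ring
        _ = N ^ 2 := by rw [hr2]
    exact RCN_contra hk1 hηk rfl (by linarith) (by linarith) (by linarith) hB0 hBN hYN h1
  -- the good ones
  refine ⟨((range m) \ M).image (fun i => (F i).β), ?_, ?_⟩
  · intro α hα
    obtain ⟨i, hi, rfl⟩ := mem_image.1 hα
    obtain ⟨hi1, hi2⟩ := mem_sdiff.1 hi
    obtain ⟨d, t, hdat, hd, hZ, hu, hv⟩ := hRAT K Q (F i) (hβ0 i hi1) (hγ0 i hi1)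
    rw [hFa i hi1] at hdat
    refine ⟨(F i).γ, d, t, hdat, ?_, ?_⟩
    · rw [hd]
      refine le_of_not_gt fun h => hi2 ?_
      rw [hMdef, mem_filter]
      exact ⟨hi1, h⟩
    · exact RCN_box Q (F i) d t N Y T r s (sz Q θ) hN0 hrdef hs0 hsr hrs hY0 hT0 ha.y1 ha.y2 hdat.tt hdat.d1
        hdat.n hdat.k hu hv hZ (by rw [hsdef]; exact hs1 i hi1) (by rw [hsdef]; exact hs2' i hi1)
        (by rw [hsdef]; exact hs3 i hi1) (by rw [hsdef]; exact hs4 i hi1) (by rw [hsdef]; exact hs5 i hi1)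
        (by rw [hsdef]; exact hs6 i hi1) (hs7 i hi1)
  · have hinj : Set.InjOn (fun i : ℕ => (F i).β) ((range m) \ M : Finset ℕ) := by
      intro i hi i' hi' h
      have hi1 := (mem_sdiff.1 (Finset.mem_coe.1 hi)).1
      have hi1' := (mem_sdiff.1 (Finset.mem_coe.1 hi')).1
      have h0 : (F i).β = (F i').β := h
      have hjj : ∀ (p : ℤ), (p : 𝓞 K) * e₁ + ((2 * j : ℤ) : 𝓞 K) * e₂ ≠ 0 := by
        intro p hp
        have := RCN_ind Q a e₁ e₂ ha.ne hRB p (2 * j) hp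
        omega
      have hplus : (x i : 𝓞 K) * e₁ + j * e₂ = (x i' : 𝓞 K) * e₁ + j * e₂ → i = i' := by
        intro h1
        have h2 : (x i : 𝓞 K) = (x i' : 𝓞 K) := mul_right_cancel₀ hRB.ne (add_right_cancel h1)
        exact hxinj (by exact_mod_cast h2)
      have hminus : (x i : 𝓞 K) * e₁ + j * e₂ = -((x i' : 𝓞 K) * e₁ + j * e₂) → i = i' := by
        intro h1
        exfalso
        apply hjj (x i + x i')
        push_cast
        linear_combination h1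
      rcases hFβ i hi1 with h1 | h1 <;> rcases hFβ i' hi1' with h2 | h2
      · exact hplus (by rw [← h1, ← h2, h0])
      · exact hminus (by rw [← h1, ← h2, h0])
      · exact hminus (by rw [← h2, ← h0, h1, neg_neg])
      · exact hplus (by
          have h3 : -((x i : 𝓞 K) * e₁ + j * e₂) = -((x i' : 𝓞 K) * e₁ + j * e₂) := by rw [← h1, ← h2, h0]
          exact neg_injective h3)
    rw [card_image_of_injOn hinj]
    have h1 : m ≤ ((range m) \ M).card + M.card := by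
      have := card_le_card_sdiff_add_card (s := range m) (t := M)
      rwa [card_range] at this
    have h2 : (m : ℝ) ≤ (((range m) \ M).card : ℝ) + (k - 1) := by
      have h3 : M.card + 1 ≤ k := hMcard
      have h4 : (M.card : ℝ) + 1 ≤ k := by exact_mod_cast h3
      have h5 : (m : ℝ) ≤ (((range m) \ M).card : ℝ) + (M.card : ℝ) := by exact_mod_cast h1
      linarith
    rw [← hBdef]
    have h6 : (k : ℝ) * (1 / 4) ≤ k * B := mul_le_mul_of_nonneg_left hB1 (by linarith)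
    linarith

end Pool.Agent.T6R
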