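import Pool.Agent.helper3.T6R.Spec

/-!
# T6R (MP_16912e_nt), row RRO: the row in `a²`
-/

set_option autoImplicit false

namespace Pool.Agent.T6R

open Finset NumberField Pool.Agent.helper3.FT Pool.Agent.helper47.RA Pool.Agent.T5 Pool.Agent.T6
open scoped nonZeroDivisors

theorem RRO_cont {K : Type} [Field K] [NumberField K] (Q : QF K) (a : Ideal (𝓞 K)) (e₁ e₂ : 𝓞 K)
    (ha : a ≠ ⊥) (hRB : BAS Q (a ^ 2) e₁ e₂) (j x : ℤ) (e : ℕ) (hj : |j| = 2 ^ e)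
    (hx : Odd x) (q : ℕ) (hq : q.Prime) :
    ¬ Ideal.span {(q : 𝓞 K)} * a ^ 2 ∣ Ideal.span {(x : 𝓞 K) * e₁ + j * e₂} := by
  intro hdvd
  rw [Ideal.dvd_span_singleton, Ideal.mem_span_singleton_mul] at hdvd
  obtain ⟨β, hβ, hβ2⟩ := hdvd
  obtain ⟨x', y', hxy⟩ := hRB.sp β hβ
  have h0 : ((x - q * x' : ℤ) : 𝓞 K) * e₁ + ((j - q * y' : ℤ) : 𝓞 K) * e₂ = 0 := by
    have : ((x - q * x' : ℤ) : 𝓞 K) * e₁ + ((j - q * y' : ℤ) : 𝓞 K) * e₂ =
        ((x : 𝓞 K) * e₁ + j * e₂) - (q : 𝓞 K) * (x' * e₁ + y' * e₂) := by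
      push_cast
      ring
    rw [this, ← hxy, hβ2, sub_self]
  have hne : Q.Y (Q.cj e₁ * e₂) ≠ 0 := by
    intro h
    have h2 := hRB.det
    rw [h, abs_zero] at h2
    have h3 : Ideal.absNorm (a ^ 2) = 0 := by exact_mod_cast h2.symm
    rw [Ideal.absNorm_eq_zero_iff] at h3
    exact ha (pow_eq_zero_iff (two_ne_zero) |>.1 (by simpa using h3))
  have h1 := Pool.Agent.helper26.T5.lbb_bilin Q e₁ e₂ 1 0 (x - q * x') (j - q * y')
  rw [h0, mul_zero] at h1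
  have hY0 : Q.Y (0 : 𝓞 K) = 0 := by
    have := Q.Y_int 0
    rwa [Int.cast_zero] at this
  rw [hY0] at h1
  have h2 : j - q * y' = 0 := by
    have h3 : (1 * (j - q * y') - 0 * (x - q * x')) * Q.Y (Q.cj e₁ * e₂) = 0 := h1.symm
    rcases mul_eq_zero.1 h3 with h4 | h4
    · linarith
    · exact absurd h4 hne
  rw [h2, Int.cast_zero, zero_mul, add_zero] at h0
  have h3 : x - q * x' = 0 := by
    rcases mul_eq_zero.1 h0 with h4 | h4
    · exact_mod_cast h4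
    · exact absurd h4 hRB.ne
  have hqj : (q : ℤ) ∣ 2 ^ e := by
    rw [← hj, dvd_abs]
    exact ⟨y', by linarith⟩
  have hq2 : q ∣ 2 ^ e := by exact_mod_cast hqj
  have hq3 : q = 2 := (Nat.prime_dvd_prime_iff_eq hq Nat.prime_two).1 (hq.dvd_of_dvd_pow hq2)
  subst hq3
  obtain ⟨m, hm⟩ := hx
  push_cast at h3
  omega

/-- unit vectors -/
theorem RRO_w (p q r : ℝ) (h : 0 < p ^ 2 + q ^ 2) (hr : r = √(p ^ 2 + q ^ 2)) :
    ‖(⟨p / r, q / r⟩ : ℂ)‖ = 1 ∧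
      ∀ z : ℂ, r * |((starRingEnd ℂ) (⟨p / r, q / r⟩ : ℂ) * z).im| = |p * z.im - q * z.re| := by
  have hr0 : 0 < r := by
    rw [hr]
    exact Real.sqrt_pos.2 h
  have hrr : r ^ 2 = p ^ 2 + q ^ 2 := by
    rw [hr]
    exact Real.sq_sqrt h.le
  constructor
  · have h1 : ‖(⟨p / r, q / r⟩ : ℂ)‖ ^ 2 = 1 := by
      rw [Complex.sq_norm, Complex.normSq_mk]
      have h2 : p / r * (p / r) + q / r * (q / r) = (p ^ 2 + q ^ 2) / r ^ 2 := by
        field_simp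
      rw [h2, hrr, div_self h.ne']
    have h3 : (0 : ℝ) ≤ ‖(⟨p / r, q / r⟩ : ℂ)‖ := norm_nonneg _
    nlinarith
  · intro z
    have h1 : ((starRingEnd ℂ) (⟨p / r, q / r⟩ : ℂ) * z).im = (p * z.im - q * z.re) / r := by
      rw [Complex.mul_im]
      simp only [Complex.conj_re, Complex.conj_im]
      ring
    rw [h1, abs_div, abs_of_pos hr0]
    field_simp

/-- the point of the plane -/
noncomputable def RRO_z {K : Type} [Field K] [NumberField K] (Q : QF K) (A B : ℝ) (α : 𝓞 K) : ℂ :=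
  ⟨emA Q α / A ^ 2, emB Q α / B ^ 2⟩

theorem RRO (hRGE : RGE_stmt) (hRSZ : RSZ_stmt) (hRFU : RFU_stmt) (hREM : REM_stmt) : RRO_stmt := by
  intro K _ _ Q hD a θ e₁ e₂ hPa ha hθ hRB T hT h144 h90000
  obtain ⟨⟨f, g, hf, hg⟩, hcj, hY, hN, -, hne0, -⟩ := hREM K Q hD
  have hDr : (0 : ℝ) < (Q.D : ℝ) := by exact_mod_cast hD
  obtain ⟨s, hs⟩ : ∃ s : ℝ, s = √(Q.D : ℝ) := ⟨_, rfl⟩
  have hs0 : 0 < s := by
    rw [hs]
    exact Real.sqrt_pos.2 hDr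
  have hss : s ^ 2 = (Q.D : ℝ) := by
    rw [hs]
    exact Real.sq_sqrt hDr.le
  have hθ0 : θ ≠ 0 := by
    intro h
    rw [h] at hθ
    have h1 : a ^ 5 = ⊥ := by
      rw [← hθ]
      exact Ideal.span_singleton_eq_bot.2 rfl
    exact ha ((pow_eq_zero_iff (n := 5) (by norm_num)).1 (by simpa using h1))
  obtain ⟨hAθ, hBθ⟩ := hne0 θ hθ0
  obtain ⟨A, hA⟩ : ∃ A : ℝ, A = xA Q θ := ⟨_, rfl⟩
  obtain ⟨B, hB⟩ : ∃ B : ℝ, B = xB Q θ := ⟨_, rfl⟩
  have hA0 : 0 < A := by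
    rw [hA]
    exact Real.rpow_pos_of_pos (abs_pos.2 hAθ) _
  have hB0 : 0 < B := by
    rw [hB]
    exact Real.rpow_pos_of_pos (abs_pos.2 hBθ) _
  have hA5 : A ^ 5 = |emA Q θ| := by
    rw [hA]
    unfold xA
    rw [← Real.rpow_natCast, ← Real.rpow_mul (abs_nonneg _)]
    norm_num
  have hB5 : B ^ 5 = |emB Q θ| := by
    rw [hB]
    unfold xB
    rw [← Real.rpow_natCast, ← Real.rpow_mul (abs_nonneg _)]
    norm_num
  have hAB : A * B = (Ideal.absNorm a : ℝ) := by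
    have h1 : (A * B) ^ 5 = (Ideal.absNorm a : ℝ) ^ 5 := by
      rw [mul_pow, hA5, hB5, ← abs_mul, ← hN θ, hθ, map_pow]
      push_cast
      ring
    exact (pow_left_inj₀ (by positivity) (Nat.cast_nonneg _) (by norm_num)).1 h1
  have hsz : sz Q θ = A ^ 2 + B ^ 2 := by
    rw [hA, hB]
    rfl
  have hszp : 0 < sz Q θ := by
    rw [hsz]
    positivity
  -- the points
  have hnz : ∀ α : 𝓞 K, ‖RRO_z Q A B α‖ ^ 2 = qf Q θ α := by
    intro α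
    rw [Complex.sq_norm]
    unfold RRO_z qf qw
    rw [Complex.normSq_mk, ← hA, ← hB]
    ring
  have hnz' : ∀ α : 𝓞 K, ‖RRO_z Q A B α‖ = √(qf Q θ α) := by
    intro α
    rw [← hnz, Real.sqrt_sq (norm_nonneg _)]
  have hzadd : ∀ x y : ℤ, RRO_z Q A B ((x : 𝓞 K) * e₁ + y * e₂) =
      (x : ℂ) * RRO_z Q A B e₁ + y * RRO_z Q A B e₂ := by
    intro x y
    have h1 : emA Q ((x : 𝓞 K) * e₁ + y * e₂) = x * emA Q e₁ + y * emA Q e₂ := by
      rw [← hf, ← hf, ← hf, map_add, map_mul, map_mul, map_intCast, map_intCast]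
    have h2 : emB Q ((x : 𝓞 K) * e₁ + y * e₂) = x * emB Q e₁ + y * emB Q e₂ := by
      rw [← hg, ← hg, ← hg, map_add, map_mul, map_mul, map_intCast, map_intCast]
    apply Complex.ext
    · unfold RRO_z
      simp only [Complex.add_re, Complex.mul_re, Complex.intCast_re, Complex.intCast_im]
      rw [h1]
      ring
    · unfold RRO_z
      simp only [Complex.add_im, Complex.mul_im, Complex.intCast_re, Complex.intCast_im]
      rw [h2]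
      ring
  have hdet : |((starRingEnd ℂ) (RRO_z Q A B e₁) * RRO_z Q A B e₂).im| = s := by
    have h1 : ((starRingEnd ℂ) (RRO_z Q A B e₁) * RRO_z Q A B e₂).im =
        -((Q.Y (Q.cj e₁ * e₂) : ℝ) * s) / (A * B) ^ 2 := by
      have h2 := hY (Q.cj e₁ * e₂)
      rw [← hs] at h2
      have h3 : emA Q (Q.cj e₁ * e₂) = emB Q e₁ * emA Q e₂ := by
        rw [← hf, map_mul, hf, hf, (hcj e₁).1]
      have h4 : emB Q (Q.cj e₁ * e₂) = emA Q e₁ * emB Q e₂ := by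
        rw [← hg, map_mul, hg, hg, (hcj e₁).2]
      rw [← h2, h3, h4, Complex.mul_im]
      unfold RRO_z
      simp only [Complex.conj_re, Complex.conj_im]
      field_simp
      ring
    have h5 : |(Q.Y (Q.cj e₁ * e₂) : ℝ)| = (A * B) ^ 2 := by
      have h2 := hRB.det
      rw [map_pow] at h2
      rw [hAB, ← Int.cast_abs, h2]
      push_cast
      ring
    rw [h1, abs_div, abs_neg, abs_mul, h5, abs_of_pos hs0, abs_of_pos (by positivity : (0 : ℝ) < (A * B) ^ 2)]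
    field_simp
  obtain ⟨q₁, hq₁⟩ : ∃ q₁ : ℝ, q₁ = qf Q θ e₁ := ⟨_, rfl⟩
  have hq₁0 : 0 ≤ q₁ := by
    rw [hq₁, ← hnz]
    positivity
  rw [← hq₁] at h144 h90000
  have hRT : 0 < √T := Real.sqrt_pos.2 hT
  have hTT : √T * √T = T := Real.mul_self_sqrt hT.le
  have hqq : √q₁ * √q₁ = q₁ := Real.mul_self_sqrt hq₁0
  have hu₁ : ‖RRO_z Q A B e₁‖ = √q₁ := by rw [hnz', hq₁]
  have k1 : 12 * s ≤ √T * √q₁ := by
    refine abs_le_of_sq_le_sq' ?_ (by positivity) |>.2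
    calc (12 * s) ^ 2 = 144 * (Q.D : ℝ) := by rw [mul_pow, hss]; norm_num
      _ ≤ T * q₁ := h144
      _ = (√T * √T) * (√q₁ * √q₁) := by rw [hTT, hqq]
      _ = (√T * √q₁) ^ 2 := by ring
  have k2 : 300 * √q₁ ≤ √T := by
    refine abs_le_of_sq_le_sq' ?_ (by positivity) |>.2
    calc (300 * √q₁) ^ 2 = 90000 * (√q₁ * √q₁) := by ring
      _ = 90000 * q₁ := by rw [hqq]
      _ ≤ T := h90000
      _ = √T ^ 2 := by rw [sq, hTT]
  obtain ⟨r₁, hr₁⟩ : ∃ r₁ : ℝ, r₁ = √((B ^ 2) ^ 2 + (A ^ 2) ^ 2) := ⟨_, rfl⟩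
  obtain ⟨r₂, hr₂⟩ : ∃ r₂ : ℝ, r₂ = √((√A) ^ 2 + (√B) ^ 2) := ⟨_, rfl⟩
  have hsA : (√A) ^ 2 = A := Real.sq_sqrt hA0.le
  have hsB : (√B) ^ 2 = B := Real.sq_sqrt hB0.le
  obtain ⟨w1n, w1⟩ := RRO_w (B ^ 2) (A ^ 2) r₁ (by positivity) hr₁
  obtain ⟨w2n, w2⟩ := RRO_w (√A) (√B) r₂ (by rw [hsA, hsB]; positivity) hr₂
  obtain ⟨w3n, w3⟩ := RRO_w (√A) (-√B) r₂ (by rw [neg_sq, hsA, hsB]; positivity) (by rw [neg_sq]; exact hr₂)
  have hr₁0 : 0 < r₁ := by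
    rw [hr₁]
    positivity
  have hr₂0 : 0 < r₂ := by
    rw [hr₂, hsA, hsB]
    positivity
  have hr₂s : r₂ ^ 2 = A + B := by
    rw [hr₂, hsA, hsB]
    exact Real.sq_sqrt (by positivity)
  have hr₁s : r₁ ^ 2 = (B ^ 2) ^ 2 + (A ^ 2) ^ 2 := by
    rw [hr₁]
    exact Real.sq_sqrt (by positivity)
  obtain ⟨j, x₀, e, hj, hjV, hrow⟩ := hRGE (RRO_z Q A B e₁) (RRO_z Q A B e₂) _ _ _ (√T) s hs0 hdet w1n w2n w3n
    (by rw [hu₁]; exact k1) (by rw [hu₁]; exact k2)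
  rw [hu₁] at hjV hrow
  rw [← hs, ← hq₁]
  refine ⟨j, x₀, ?_, hjV, ?_⟩
  · intro h
    rw [h, abs_zero] at hj
    have : (0 : ℤ) < 2 ^ e := by positivity
    omega
  intro x hx hx2 hodd
  obtain ⟨z1, z2, z3, z4, z5⟩ := hrow x hx hx2
  rw [← hzadd] at z1 z2 z3 z4 z5
  obtain ⟨α, hα⟩ : ∃ α : 𝓞 K, α = (x : 𝓞 K) * e₁ + j * e₂ := ⟨_, rfl⟩
  rw [← hα] at z1 z2 z3 z4 z5 ⊢
  obtain ⟨z, hz⟩ : ∃ z : ℂ, z = RRO_z Q A B α := ⟨_, rfl⟩
  rw [← hz] at z1 z2 z3 z4 z5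
  have hz0 : 0 < ‖z‖ := lt_of_lt_of_le (by positivity) z1
  have hα0 : α ≠ 0 := by
    intro h
    have h1 : emA Q α = 0 := by rw [← hf, h, map_zero]
    have h2 : emB Q α = 0 := by rw [← hg, h, map_zero]
    have h3 : z = 0 := by
      rw [hz]
      unfold RRO_z
      rw [h1, h2, zero_div, zero_div]
      rfl
    rw [h3, norm_zero] at hz0
    exact lt_irrefl _ hz0
  have hαm : α ∈ a ^ 2 := by
    rw [hα]
    exact Ideal.add_mem _ (Ideal.mul_mem_left _ _ hRB.m1) (Ideal.mul_mem_left _ _ hRB.m2)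
  have hcont : Pool.Agent.helper26.T5.Cont1 a α := by
    intro q hq
    rw [hα]
    exact RRO_cont Q a e₁ e₂ ha hRB j x e hj hodd q hq
  obtain ⟨F, hFa, hFβ, hFα, hβ0, hγ0⟩ := hRFU K Q a θ α hPa ha hθ hα0 hαm hcont
  -- the sizes of `F`
  have hnegA : ∀ y : 𝓞 K, emA Q (-y) = -emA Q y := fun y => by rw [← hf, ← hf, map_neg]
  have hnegB : ∀ y : 𝓞 K, emB Q (-y) = -emB Q y := fun y => by rw [← hg, ← hg, map_neg]
  have exA : xA Q F.α = A := by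
    rw [hA]
    unfold xA
    rcases hFα with h | h
    · rw [h]
    · rw [h, hnegA, abs_neg]
  have exB : xB Q F.α = B := by
    rw [hB]
    unfold xB
    rcases hFα with h | h
    · rw [h]
    · rw [h, hnegB, abs_neg]
  have esz : sz Q F.α = sz Q θ := by
    unfold sz
    rw [exA, exB, hA, hB]
  have eA2 : (emA Q F.β / A ^ 2) ^ 2 = z.re ^ 2 := by
    rw [hz]
    unfold RRO_z
    rcases hFβ with h | h
    · rw [h]
    · rw [h, hnegA, neg_div, neg_sq]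
  have eB2 : (emB Q F.β / B ^ 2) ^ 2 = z.im ^ 2 := by
    rw [hz]
    unfold RRO_z
    rcases hFβ with h | h
    · rw [h]
    · rw [h, hnegB, neg_div, neg_sq]
  have eqf : qf Q F.α F.β = ‖z‖ ^ 2 := by
    rw [Complex.sq_norm, Complex.normSq_apply]
    unfold qf qw
    rw [exA, exB, eA2, eB2]
    ring
  obtain ⟨-, ⟨s1, s2, s3, s4⟩, ⟨s5, -⟩, -, s6⟩ := hRSZ K Q hD F
  rw [esz, eqf, Real.sqrt_sq hz0.le, ← hs] at s1 s3 s4
  rw [esz, eqf, ← hs] at s2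
  rw [esz] at s5
  rw [exA, exB, eA2, eB2, ← hs] at s6
  have hz2T : ‖z‖ ^ 2 ≤ T := by
    calc ‖z‖ ^ 2 = ‖z‖ * ‖z‖ := sq _
      _ ≤ √T * √T := mul_le_mul z2 z2 hz0.le hRT.le
      _ = T := hTT
  have hz2T' : T / 16 ≤ ‖z‖ ^ 2 := by
    calc T / 16 = (√T / 4) * (√T / 4) := by rw [div_mul_div_comm, hTT]; norm_num
      _ ≤ ‖z‖ * ‖z‖ := mul_le_mul z1 z1 (by positivity) hz0.le
      _ = ‖z‖ ^ 2 := (sq _).symm
  have hssz : 0 ≤ √(sz Q θ) := Real.sqrt_nonneg _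
  -- lower bound for beta
  have hYβ : |(Q.Y F.β : ℝ)| * s = |A ^ 2 * z.re - B ^ 2 * z.im| := by
    have h1 : (Q.Y α : ℝ) * s = A ^ 2 * z.re - B ^ 2 * z.im := by
      rw [hs, ← hY α, hz]
      unfold RRO_z
      field_simp
    have h2 : |(Q.Y F.β : ℝ)| = |(Q.Y α : ℝ)| := by
      rcases hFβ with h | h
      · rw [h]
      · have h3 : (Q.Y (-α) : ℝ) * s = -((Q.Y α : ℝ) * s) := by
          rw [hs, ← hY, ← hY, hnegA, hnegB]
          ring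
        have h4 : (Q.Y (-α) : ℝ) = -(Q.Y α : ℝ) := by
          apply mul_right_cancel₀ hs0.ne'
          rw [h3]
          ring
        rw [h, h4, abs_neg]
    rw [h2, ← h1, abs_mul, abs_of_pos hs0]
  have m1 := w1 z
  have m2 := w2 z
  have m3 := w3 z
  have n1 : r₁ * ‖z‖ ≤ 4 * (|(Q.Y F.β : ℝ)| * s) := by
    have h1 := mul_le_mul_of_nonneg_left z3 hr₁0.le
    have h2 : |B ^ 2 * z.im - A ^ 2 * z.re| = |A ^ 2 * z.re - B ^ 2 * z.im| := abs_sub_comm _ _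
    rw [hYβ, ← h2, ← m1]
    linarith
  have n2 : (sz Q θ) ≤ 17 / 12 * r₁ := by
    refine abs_le_of_sq_le_sq' ?_ (by positivity) |>.2
    rw [hsz, mul_pow, hr₁s]
    have h1 := sq_nonneg (A ^ 2 - B ^ 2)
    have h2 : 0 ≤ (B ^ 2) ^ 2 + (A ^ 2) ^ 2 := by positivity
    linarith
  have n3 : sz Q θ * √T ≤ 24 * (|(Q.Y F.β : ℝ)| * s) := by
    have h1 : sz Q θ * √T ≤ 17 / 12 * r₁ * (4 * ‖z‖) :=
      mul_le_mul n2 (by linarith) hRT.le (by positivity)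
    have h2 : 0 ≤ |(Q.Y F.β : ℝ)| * s := by positivity
    linarith
  have n4 : (r₂ * ‖z‖) * (r₂ * ‖z‖) ≤ 16 * |B * z.re ^ 2 - A * z.im ^ 2| := by
    have h1 : r₂ * ‖z‖ ≤ 4 * |√A * z.im - √B * z.re| := by
      have h3 := mul_le_mul_of_nonneg_left z4 hr₂0.le
      rw [← m2]
      linarith
    have h2 : r₂ * ‖z‖ ≤ 4 * |√A * z.im - -√B * z.re| := by
      have h3 := mul_le_mul_of_nonneg_left z5 hr₂0.le
      rw [← m3]
      linarith
    have h3 := mul_le_mul h1 h2 (by positivity) (by positivity)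
    have h4 : (4 * |√A * z.im - √B * z.re|) * (4 * |√A * z.im - -√B * z.re|) =
        16 * |B * z.re ^ 2 - A * z.im ^ 2| := by
      have h5 : |√A * z.im - √B * z.re| * |√A * z.im - -√B * z.re| = |B * z.re ^ 2 - A * z.im ^ 2| := by
        rw [← abs_mul, abs_sub_comm (B * z.re ^ 2)]
        congr 1
        calc (√A * z.im - √B * z.re) * (√A * z.im - -√B * z.re) = √A ^ 2 * z.im ^ 2 - √B ^ 2 * z.re ^ 2 := by ring
          _ = A * z.im ^ 2 - B * z.re ^ 2 := by rw [hsA, hsB]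
      rw [← h5]
      ring
    rw [h4] at h3
    exact h3
  have n5 : (A + B) * ‖z‖ ^ 2 ≤ 16 * (|(Q.Y F.γ : ℝ)| * s) := by
    calc (A + B) * ‖z‖ ^ 2 = (r₂ * ‖z‖) * (r₂ * ‖z‖) := by
          rw [← hr₂s]
          ring
      _ ≤ 16 * |B * z.re ^ 2 - A * z.im ^ 2| := n4
      _ ≤ 16 * (|(Q.Y F.γ : ℝ)| * s) := by linarith
  have n6 : √(sz Q θ) ≤ A + B := by
    rw [hsz]
    refine Real.sqrt_le_iff.2 ⟨by positivity, ?_⟩
    have h1 := mul_pos hA0 hB0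
    linarith
  have n7 : √(sz Q θ) * T ≤ 300 * (|(Q.Y F.γ : ℝ)| * s) := by
    have h1 : √(sz Q θ) * T ≤ (A + B) * (16 * ‖z‖ ^ 2) :=
      mul_le_mul n6 (by linarith) hT.le (by positivity)
    have h2 : 0 ≤ |(Q.Y F.γ : ℝ)| * s := by positivity
    linarith
  have hβr : |(Q.Y F.β : ℝ)| = (Q.Y F.β : ℝ) := abs_of_nonneg (by exact_mod_cast hβ0)
  have hγr : |(Q.Y F.γ : ℝ)| = (Q.Y F.γ : ℝ) := abs_of_nonneg (by exact_mod_cast hγ0)
  rw [hβr] at n3 s1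
  rw [hγr] at n7 s2
  have hβpos : 0 < Q.Y F.β := by
    refine lt_of_le_of_ne hβ0 fun h => ?_
    rw [← h, Int.cast_zero, zero_mul, mul_zero] at n3
    have : 0 < sz Q θ * √T := by positivity
    linarith
  have hγpos : 0 < Q.Y F.γ := by
    refine lt_of_le_of_ne hγ0 fun h => ?_
    rw [← h, Int.cast_zero, zero_mul, mul_zero] at n7
    have h1 : 0 < √(sz Q θ) := Real.sqrt_pos.2 hszp
    have : 0 < √(sz Q θ) * T := by positivity
    linarith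
  refine ⟨F, hFa, hFβ, hFα, hβpos, hγpos, n3, n7, ?_, ?_, ?_, ?_, s5⟩
  · exact s1.trans (mul_le_mul_of_nonneg_left z2 hszp.le)
  · exact s2.trans (mul_le_mul_of_nonneg_left hz2T hssz)
  · exact s3.trans (mul_le_mul_of_nonneg_left z2 (by positivity))
  · refine s4.trans (mul_le_mul_of_nonneg_left ?_ hssz)
    exact mul_le_mul hz2T z2 hz0.le hT.le

end Pool.Agent.T6R
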