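import Pool.Agent.helper3.T6R.Spec
import Pool.Agent.helper13.T6.WGF

/-!
# T6R (MP_16912e_nt), row RWG: the upper bound for the box from the blocks
-/

set_option autoImplicit false

namespace Pool.Agent.T6R

open Finset NumberField Pool.Agent.helper3.FT Pool.Agent.helper47.RA Pool.Agent.T5 Pool.Agent.T6
open scoped nonZeroDivisors

/-- `Bx` is antitone in `κ` -/
theorem RWG_bx (κ κ' N Y Y₂ : ℝ) (t : Tpl) (h : κ' ≤ κ) (hs : 0 ≤ sN N Y Y₂) (hk : 0 ≤ sK N Y Y₂)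
    (ht : Bx κ N Y Y₂ t) : Bx κ' N Y Y₂ t := by
  obtain ⟨a, b, c, d, e, f, g, i⟩ := ht
  exact ⟨a, le_trans (mul_le_mul_of_nonneg_right h hs) b, c, le_trans (mul_le_mul_of_nonneg_right h hk) d, e, f, g, i⟩

/-- reduction to blocks -/
theorem RWG_blk (κ : ℝ) (hκ : 0 < κ) (hκ1 : κ ≤ 1) : ∃ C : ℝ, 1 ≤ C ∧ ∀ N Y Y₂ : ℝ,
    1 ≤ κ ^ 2 * sN N Y Y₂ → 1 ≤ κ ^ 2 * sK N Y Y₂ → ∀ F : Finset Tpl, (∀ t ∈ F, Bx κ N Y Y₂ t) →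
    ∀ B : ℝ, 0 ≤ B → (∀ N₁ K₁ : ℕ, Blk (κ ^ 2) 6 N Y Y₂ N₁ K₁ → ∀ F' ⊆ F,
      (∀ t ∈ F', N₁ < 2 * t.1.1 ∧ t.1.1 ≤ N₁ ∧ K₁ < 2 * t.1.2 ∧ t.1.2 ≤ K₁) → (F'.card : ℝ) ≤ B) →
    (F.card : ℝ) ≤ C * B := by
  have hκ2 : 0 < κ ^ 2 := by positivity
  have hκ21 : κ ^ 2 ≤ 1 := by nlinarith
  have hκ2κ : κ ^ 2 ≤ κ := by nlinarith
  have hlog : 0 ≤ Real.log (3 / κ ^ 2) := by
    apply Real.log_nonneg
    rw [le_div_iff₀ hκ2]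
    linarith
  refine ⟨(2 + 2 * Real.log (3 / κ ^ 2)) ^ 2, by nlinarith, ?_⟩
  intro N Y Y₂ h1 h2 F hF B hB hblk
  have hsN : 0 < sN N Y Y₂ := by
    by_contra h
    push Not at h
    nlinarith
  have hsK : 0 < sK N Y Y₂ := by
    by_contra h
    push Not at h
    nlinarith
  obtain ⟨I, hI1, hI2, hI3⟩ := DYB (κ ^ 2 * sN N Y Y₂) (3 * sN N Y Y₂) h1 (by nlinarith)
  obtain ⟨J, hJ1, hJ2, hJ3⟩ := DYB (κ ^ 2 * sK N Y Y₂) (3 * sK N Y Y₂) h2 (by nlinarith)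
  rw [CBR_quot κ _ hκ hsN] at hI1
  rw [CBR_quot κ _ hκ hsK] at hJ1
  have hsub : F ⊆ (I ×ˢ J).biUnion (fun v => F.filter (fun t => v.1 < 2 * t.1.1 ∧ t.1.1 ≤ v.1 ∧ v.2 < 2 * t.1.2 ∧
      t.1.2 ≤ v.2)) := by
    intro t ht
    have hb := hF t ht
    obtain ⟨N₁, hN₁, hN₂, hN₃⟩ := hI3 t.1.1 (le_trans (mul_le_mul_of_nonneg_right hκ2κ hsN.le) hb.n1)
      (by have := hb.n2; linarith)
    obtain ⟨K₁, hK₁, hK₂, hK₃⟩ := hJ3 t.1.2 (le_trans (mul_le_mul_of_nonneg_right hκ2κ hsK.le) hb.k1)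
      (by have := hb.k2; linarith)
    rw [Finset.mem_biUnion]
    refine ⟨(N₁, K₁), Finset.mem_product.2 ⟨hN₁, hK₁⟩, ?_⟩
    rw [Finset.mem_filter]
    exact ⟨ht, hN₂, hN₃, hK₂, hK₃⟩
  have hcard : (F.card : ℝ) ≤ ∑ v ∈ I ×ˢ J, ((F.filter (fun t => v.1 < 2 * t.1.1 ∧ t.1.1 ≤ v.1 ∧ v.2 < 2 * t.1.2 ∧
      t.1.2 ≤ v.2)).card : ℝ) := by
    have h := (Finset.card_le_card hsub).trans Finset.card_biUnion_le
    exact_mod_cast h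
  have hsum : ∑ v ∈ I ×ˢ J, ((F.filter (fun t => v.1 < 2 * t.1.1 ∧ t.1.1 ≤ v.1 ∧ v.2 < 2 * t.1.2 ∧
      t.1.2 ≤ v.2)).card : ℝ) ≤ ((I ×ˢ J).card : ℝ) * B := by
    rw [← nsmul_eq_mul]
    apply Finset.sum_le_card_nsmul
    intro v hv
    rw [Finset.mem_product] at hv
    obtain ⟨i1, i2, i3⟩ := hI2 v.1 hv.1
    obtain ⟨j1, j2, j3⟩ := hJ2 v.2 hv.2
    apply hblk v.1 v.2 ⟨i2, by linarith, j2, by linarith⟩ _ (Finset.filter_subset _ _)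
    intro t ht
    exact (Finset.mem_filter.1 ht).2
  refine hcard.trans (hsum.trans (mul_le_mul_of_nonneg_right ?_ hB))
  rw [Finset.card_product, Nat.cast_mul, sq]
  exact mul_le_mul hI1 hJ1 (Nat.cast_nonneg _) (by linarith)

/-- three ranges of `Z` -/
theorem RWG_three (Y B : ℝ) (hY : 0 < Y) (F : Finset Tpl) (hF : ∀ t ∈ F, |(t.2.2.2 : ℝ)| ≤ Y)
    (h : ∀ z₀ : ℝ, ∀ F' ⊆ F, (∀ t ∈ F', z₀ < t.2.2.2 ∧ (t.2.2.2 : ℝ) ≤ z₀ + Y) → (F'.card : ℝ) ≤ B) :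
    (F.card : ℝ) ≤ 3 * B := by
  classical
  have h1 : F ⊆ (F.filter (fun t => -(2 * Y) < t.2.2.2 ∧ (t.2.2.2 : ℝ) ≤ -(2 * Y) + Y)) ∪
      ((F.filter (fun t => -Y < t.2.2.2 ∧ (t.2.2.2 : ℝ) ≤ -Y + Y)) ∪
        (F.filter (fun t => 0 < (t.2.2.2 : ℝ) ∧ (t.2.2.2 : ℝ) ≤ 0 + Y))) := by
    intro t ht
    have h2 := abs_le.1 (hF t ht)
    rw [mem_union, mem_union, mem_filter, mem_filter, mem_filter]
    by_cases c1 : 0 < (t.2.2.2 : ℝ)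
    · exact Or.inr (Or.inr ⟨ht, c1, by linarith⟩)
    · push Not at c1
      by_cases c2 : -Y < (t.2.2.2 : ℝ)
      · exact Or.inr (Or.inl ⟨ht, c2, by linarith⟩)
      · push Not at c2
        exact Or.inl ⟨ht, by linarith, by linarith⟩
  have h2 := (card_le_card h1).trans ((card_union_le _ _).trans (Nat.add_le_add_left (card_union_le _ _) _))
  have h3 := h (-(2 * Y)) _ (filter_subset _ _) (fun t ht => (mem_filter.1 ht).2)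
  have h4 := h (-Y) _ (filter_subset _ _) (fun t ht => (mem_filter.1 ht).2)
  have h5 := h 0 _ (filter_subset _ _) (fun t ht => (mem_filter.1 ht).2)
  have h6 : (F.card : ℝ) ≤ ((F.filter (fun t => -(2 * Y) < t.2.2.2 ∧ (t.2.2.2 : ℝ) ≤ -(2 * Y) + Y)).card : ℝ) +
      (((F.filter (fun t => -Y < t.2.2.2 ∧ (t.2.2.2 : ℝ) ≤ -Y + Y)).card : ℝ) +
        ((F.filter (fun t => 0 < (t.2.2.2 : ℝ) ∧ (t.2.2.2 : ℝ) ≤ 0 + Y)).card : ℝ)) := by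
    exact_mod_cast h2
  linarith

theorem RWG (hWPR : WPR_stmt) (hWNU : WNU_stmt) : RWG_stmt := by
  intro hLFS
  obtain ⟨B, τ, hτ, hW⟩ := hWPR hLFS
  obtain ⟨η₀, hη₀, hU⟩ := hWNU B τ hτ
  refine ⟨min η₀ (1 / 4), lt_min hη₀ (by norm_num), ?_⟩
  intro κ A hκ hA
  have hκ' : 0 < min κ 1 := lt_min hκ one_pos
  have hκ1 : min κ 1 ≤ 1 := min_le_right _ _
  have hκκ : min κ 1 ≤ κ := min_le_left _ _
  generalize min κ 1 = κ' at hκ' hκ1 hκκ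
  obtain ⟨C₁, N₀, hC₁, hU⟩ := hU κ' A hκ' hκ1 hA
  obtain ⟨C₂, hC₂, hW⟩ := hW C₁ hC₁
  obtain ⟨C₃, hC₃, hCB⟩ := RWG_blk κ' hκ' hκ1
  have hη : 0 < min η₀ (1 / 4 : ℝ) := lt_min hη₀ (by norm_num)
  have hη1 : min η₀ (1 / 4 : ℝ) ≤ 1 / 4 := min_le_right _ _
  have hηη : min η₀ (1 / 4 : ℝ) ≤ η₀ := min_le_left _ _
  generalize min η₀ (1 / 4 : ℝ) = η at hη hη1 hηη
  have h12 : 1 ≤ C₁ * C₂ := one_le_mul_of_one_le_of_one_le hC₁ hC₂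
  have h123 : 1 ≤ C₁ * C₂ * C₃ := one_le_mul_of_one_le_of_one_le h12 hC₃
  refine ⟨3 * (C₁ * C₂ * C₃), max N₀ 1, by linarith, ?_⟩
  intro N Y Y₂ hN hYY hY₂ hAN hL d er es y hd hdN her hes hcop hdd hsq hy s S hS F hF
  have hN0 : N₀ ≤ N := le_trans (le_max_left _ _) hN
  have hN1 : 1 ≤ N := le_trans (le_max_right _ _) hN
  have hNp : 0 < N := by linarith
  have hP : 0 < Y * Y₂ := lt_of_lt_of_le (Real.rpow_pos_of_pos hNp _) hL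
  have hs : 0 ≤ s := le_trans (Nat.cast_nonneg _) (hS (0, 0))
  have hy1 : 1 ≤ y := Nat.pos_of_dvd_of_pos hy hes
  have hyR : (0 : ℝ) < y := by exact_mod_cast hy1
  have herR : (0 : ℝ) < er := by exact_mod_cast her
  have hesR : (0 : ℝ) < es := by exact_mod_cast hes
  have hdR : (1 : ℝ) ≤ d := by exact_mod_cast hd
  have hNd : 1 ≤ N * (d : ℝ) ^ 2 := by nlinarith
  have hNdp : 0 < N * (d : ℝ) ^ 2 := by linarith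
  have hX0 : 0 ≤ (Y * Y₂ / (N * (d : ℝ) ^ 2)) ^ (3 / 2 : ℝ) := Real.rpow_nonneg (by positivity) _
  have hq0 : 0 < (es : ℝ) ^ (1 / 4 : ℝ) := Real.rpow_pos_of_pos hesR _
  have hBR0 : 0 ≤ 1 / ((er : ℝ) ^ 4 * (es : ℝ) ^ 3) +
      (Y * Y₂ / (N * (d : ℝ) ^ 2)) ^ (3 / 2 : ℝ) / (er * (es : ℝ) ^ (1 / 4 : ℝ)) := by positivity
  rcases F.eq_empty_or_nonempty with hE | ⟨t₀, ht₀⟩
  · rw [hE]
    simp only [Finset.card_empty, Nat.cast_zero]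
    positivity
  have hY0 : 0 < Y := by
    have h1 := (abs_nonneg _).trans (hF t₀ ht₀).1.z2
    rcases h1.eq_or_lt with h2 | h2
    · rw [← h2, zero_mul] at hP
      exact absurd hP (lt_irrefl _)
    · exact h2
  have hY1 : 1 ≤ Y := WGF_Y1 η N Y Y₂ hη hη1 hN1 hY0 hY₂ hL
  have hY₂1 : 1 ≤ Y₂ := le_trans hY1 hYY
  have hY₂0 : 0 < Y₂ := by linarith
  have hsN0 : 0 ≤ sN (N * (d : ℝ) ^ 2) Y Y₂ := by unfold sN; positivity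
  have hsK0 : 0 ≤ sK (N * (d : ℝ) ^ 2) Y Y₂ := by unfold sK; positivity
  have hsM0 : 0 ≤ sM (N * (d : ℝ) ^ 2) Y Y₂ := by unfold sM; positivity
  have hsG0 : 0 ≤ sG (N * (d : ℝ) ^ 2) Y Y₂ := by unfold sG; positivity
  have hcen : ∀ t ∈ F, Bx κ' (N * (d : ℝ) ^ 2) Y Y₂ t := fun t ht =>
    RWG_bx κ κ' _ Y Y₂ t hκκ hsN0 hsK0 (hF t ht).1
  have hY₂' : Y₂ ≤ N ^ η₀ * Y :=
    le_trans hY₂ (mul_le_mul_of_nonneg_right (Real.rpow_le_rpow_of_exponent_le hN1 hηη) hY0.le)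
  have hL' : N ^ (1 - η₀) ≤ Y * Y₂ :=
    le_trans (Real.rpow_le_rpow_of_exponent_le hN1 (by linarith)) hL
  have hdN' : (d : ℝ) ≤ N ^ η₀ := le_trans hdN (Real.rpow_le_rpow_of_exponent_le hN1 hηη)
  have hUU := hU N Y Y₂ hN0 hYY hY₂' hAN hL' d er es y hd hdN' her hes hy1 hdd
  have hκ2κ : κ' ^ 2 ≤ κ' := by nlinarith
  have z1 : κ' ^ 2 * sN (N * (d : ℝ) ^ 2) Y Y₂ ≤ t₀.1.1 :=
    le_trans (mul_le_mul_of_nonneg_right hκ2κ hsN0) (hcen t₀ ht₀).n1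
  have z2 := (hcen t₀ ht₀).n2
  have z3 : κ' ^ 2 * sK (N * (d : ℝ) ^ 2) Y Y₂ ≤ t₀.1.2 :=
    le_trans (mul_le_mul_of_nonneg_right hκ2κ hsK0) (hcen t₀ ht₀).k1
  have z4 := (hcen t₀ ht₀).k2
  obtain ⟨u1, u2, -⟩ := hUU t₀.1.1 t₀.1.2 ⟨z1, by linarith, z3, by linarith⟩
  have hfin : (F.card : ℝ) ≤ C₃ * (3 * (C₂ ^ (y.primeFactors.card + 1) * s *
      (C₁ * (Y * Y₂) / y * (1 / ((er : ℝ) ^ 4 * (es : ℝ) ^ 3) +
        (Y * Y₂ / (N * (d : ℝ) ^ 2)) ^ (3 / 2 : ℝ) / (er * (es : ℝ) ^ (1 / 4 : ℝ)))))) := by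
    refine hCB (N * (d : ℝ) ^ 2) Y Y₂ u1 u2 F hcen _ (by positivity) ?_
    intro N₁ K₁ hblk F₁ hF₁ hF₁'
    refine RWG_three Y _ hY0 F₁ (fun t ht => (hcen t (hF₁ ht)).z2) ?_
    intro z₀ F' hF'₁ hz
    have hF' : F' ⊆ F := hF'₁.trans hF₁
    have hF'' : ∀ t ∈ F', N₁ < 2 * t.1.1 ∧ t.1.1 ≤ N₁ ∧ K₁ < 2 * t.1.2 ∧ t.1.2 ≤ K₁ :=
      fun t ht => hF₁' t (hF'₁ ht)
    obtain ⟨-, -, -, -, -, L, Lp, T, b, ρ, w1, w2, w3, w4, w5, w6, w7⟩ := hUU N₁ K₁ hblk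
    have key := hW N₁ K₁ L Lp T er es y b ρ z₀ Y s w1 w2 her hes hcop hsq hy hY0 w3 S hS F' (by
      intro t ht
      obtain ⟨f1, f2, f3, f4⟩ := hF t (hF' ht)
      obtain ⟨g1, g2, g3, g4⟩ := hF'' t ht
      have hc := hcen t (hF' ht)
      have c5 := hc.m2
      have c6 := hc.g2
      have c7 : 2 * sM (N * (d : ℝ) ^ 2) Y Y₂ ≤ 6 / κ' * sM (N * (d : ℝ) ^ 2) Y Y₂ := by
        refine mul_le_mul_of_nonneg_right ?_ hsM0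
        rw [le_div_iff₀ hκ']
        linarith
      refine ⟨hc.tt, ?_, f3, f4, by linarith, by linarith, (hz t ht).1, (hz t ht).2⟩
      unfold pairs
      rw [Finset.mem_filter, Finset.mem_product, Finset.mem_Icc, Finset.mem_Icc]
      exact ⟨⟨⟨hc.tt.n1, g2⟩, ⟨hc.tt.k1, g4⟩⟩, g1, g3, hc.tt.co, f2⟩)
    have h34 : (es : ℝ) ^ (3 / 4 : ℝ) / es = 1 / (es : ℝ) ^ (1 / 4 : ℝ) := by
      rw [div_eq_div_iff hesR.ne' hq0.ne', ← Real.rpow_add hesR]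
      norm_num
    have hnum := WGF_num ((N₁ : ℝ) * K₁) (L * Lp : ℝ) T es er y (Y * Y₂)
      ((Y * Y₂ / (N * (d : ℝ) ^ 2)) ^ (3 / 2 : ℝ)) C₁ ((es : ℝ) ^ (3 / 4 : ℝ)) hyR hesR herR
      (Real.rpow_nonneg hesR.le _) w6 w7 ((es : ℝ) ^ (1 / 4 : ℝ)) h34
    refine le_trans key ?_
    have hc0 : 0 ≤ C₂ ^ (y.primeFactors.card + 1) * s := by positivity
    calc C₂ ^ (y.primeFactors.card + 1) * s * (N₁ * K₁ / y) *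
          (L * Lp / T + √(L * Lp : ℝ) * (es : ℝ) ^ (3 / 4 : ℝ)) =
        C₂ ^ (y.primeFactors.card + 1) * s * ((N₁ * K₁ / y) *
          (L * Lp / T + √(L * Lp : ℝ) * (es : ℝ) ^ (3 / 4 : ℝ))) := by ring
      _ ≤ _ := mul_le_mul_of_nonneg_left hnum hc0
  refine le_trans hfin ?_
  have hpow : C₃ * C₁ * C₂ ^ (y.primeFactors.card + 1) ≤ (C₁ * C₂ * C₃) ^ (y.primeFactors.card + 1) := by
    rw [mul_pow, mul_pow]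
    have e1 : C₁ ≤ C₁ ^ (y.primeFactors.card + 1) := le_self_pow₀ hC₁ (Nat.succ_ne_zero _)
    have e3 : C₃ ≤ C₃ ^ (y.primeFactors.card + 1) := le_self_pow₀ hC₃ (Nat.succ_ne_zero _)
    have e2 : 0 ≤ C₂ ^ (y.primeFactors.card + 1) := by positivity
    have e4 : C₁ * C₃ ≤ C₁ ^ (y.primeFactors.card + 1) * C₃ ^ (y.primeFactors.card + 1) :=
      mul_le_mul e1 e3 (by linarith) (by positivity)
    nlinarith [mul_le_mul_of_nonneg_right e4 e2]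
  have hpow3 : C₃ * (3 * (C₁ * C₂ ^ (y.primeFactors.card + 1))) ≤ (3 * (C₁ * C₂ * C₃)) ^ (y.primeFactors.card + 1) := by
    have e1 : (3 : ℝ) ≤ 3 ^ (y.primeFactors.card + 1) := le_self_pow₀ (by norm_num) (Nat.succ_ne_zero _)
    have e2 : 0 ≤ C₃ * C₁ * C₂ ^ (y.primeFactors.card + 1) := by positivity
    rw [mul_pow]
    calc C₃ * (3 * (C₁ * C₂ ^ (y.primeFactors.card + 1))) = 3 * (C₃ * C₁ * C₂ ^ (y.primeFactors.card + 1)) := by ring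
      _ ≤ 3 ^ (y.primeFactors.card + 1) * (C₁ * C₂ * C₃) ^ (y.primeFactors.card + 1) :=
        mul_le_mul e1 hpow e2 (by positivity)
  have hrest : 0 ≤ s / y * (Y * Y₂) * (1 / ((er : ℝ) ^ 4 * (es : ℝ) ^ 3) +
        (Y * Y₂ / (N * (d : ℝ) ^ 2)) ^ (3 / 2 : ℝ) / (er * (es : ℝ) ^ (1 / 4 : ℝ))) := by positivity
  calc C₃ * (3 * (C₂ ^ (y.primeFactors.card + 1) * s *
      (C₁ * (Y * Y₂) / y * (1 / ((er : ℝ) ^ 4 * (es : ℝ) ^ 3) +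
        (Y * Y₂ / (N * (d : ℝ) ^ 2)) ^ (3 / 2 : ℝ) / (er * (es : ℝ) ^ (1 / 4 : ℝ)))))) =
      C₃ * (3 * (C₁ * C₂ ^ (y.primeFactors.card + 1))) * (s / y * (Y * Y₂) * (1 / ((er : ℝ) ^ 4 * (es : ℝ) ^ 3) +
        (Y * Y₂ / (N * (d : ℝ) ^ 2)) ^ (3 / 2 : ℝ) / (er * (es : ℝ) ^ (1 / 4 : ℝ)))) := by ring
    _ ≤ (3 * (C₁ * C₂ * C₃)) ^ (y.primeFactors.card + 1) * (s / y * (Y * Y₂) * (1 / ((er : ℝ) ^ 4 * (es : ℝ) ^ 3) +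
        (Y * Y₂ / (N * (d : ℝ) ^ 2)) ^ (3 / 2 : ℝ) / (er * (es : ℝ) ^ (1 / 4 : ℝ)))) :=
        mul_le_mul_of_nonneg_right hpow3 hrest
    _ = _ := by ring

end Pool.Agent.T6R
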